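import Pool.Agent.Lib_helper84.FT.Defs

/-!
# Block LALG: a Garside monoid from a finite right complement system
-/

set_option autoImplicit false

namespace Pool.Agent.FT

section Abstract

variable {M : Type} [Monoid M] {d : M}

/-- abstract criterion -/
theorem garside_of (lc : ∀ a b c : M, a * b = a * c → b = c)
    (un : ∀ a b : M, a * b = 1 → a = 1)
    (lcm : ∀ a b : M, ∃ m : M, (∃ c, m = a * c) ∧ (∃ c, m = b * c) ∧
          ∀ x : M, (∃ c, x = a * c) → (∃ c, x = b * c) → ∃ c, x = m * c)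
    (cen : ∀ x : M, d * x = x * d)
    (dv : ∀ x : M, ∃ (k : ℕ) (y : M), x * y = d ^ k)
    (rc : ∀ a b c : M, b * a = c * a → b = c)
    (fin : ∀ x : M, Set.Finite {y : M | ∃ c, x = y * c})
    (gen : Submonoid.closure {x : M | ∃ c, d = x * c} = ⊤) : IsGarside M d := by
  have cenk : ∀ (k : ℕ) (x : M), d ^ k * x = x * d ^ k := fun k x =>
    ((show Commute d x from cen x).pow_left k).eq
  -- complements on both sides
  have comm : ∀ (x y : M) (k : ℕ), x * y = d ^ k → y * x = d ^ k := by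
    intro x y k h
    apply lc x
    rw [← mul_assoc, h, cenk]
  have dvN : ∀ x : M, ∃ k : ℕ, ∀ N, k ≤ N → ∃ y, x * y = d ^ N := by
    intro x
    obtain ⟨k, y, h⟩ := dv x
    refine ⟨k, fun N hN => ⟨y * d ^ (N - k), ?_⟩⟩
    rw [← mul_assoc, h, ← pow_add, Nat.add_sub_cancel' hN]
  -- length
  obtain ⟨len, hlen⟩ : ∃ len : M → ℕ, ∀ x, len x = (fin x).toFinset.card - 1 := ⟨_, fun _ => rfl⟩
  have mem : ∀ x y : M, y ∈ (fin x).toFinset ↔ ∃ c, x = y * c := by
    intro x y; rw [Set.Finite.mem_toFinset]; exact Iff.rfl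
  have one_mem : ∀ x : M, (1 : M) ∈ (fin x).toFinset := fun x => (mem x 1).2 ⟨x, (one_mul x).symm⟩
  have card_pos : ∀ x : M, 1 ≤ (fin x).toFinset.card := fun x =>
    Finset.card_pos.2 ⟨1, one_mem x⟩
  have len_add : ∀ a b : M, len a + len b ≤ len (a * b) := by
    classical
    intro a b
    have h1 : (fin a).toFinset ∪ ((fin b).toFinset.erase 1).image (fun y => a * y) ⊆
        (fin (a * b)).toFinset := by
      intro z hz
      rcases Finset.mem_union.1 hz with h | h
      · obtain ⟨c, hc⟩ := (mem a z).1 h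
        exact (mem _ _).2 ⟨c * b, by rw [← mul_assoc, ← hc]⟩
      · obtain ⟨y, hy, rfl⟩ := Finset.mem_image.1 h
        obtain ⟨c, hc⟩ := (mem b y).1 (Finset.mem_of_mem_erase hy)
        exact (mem _ _).2 ⟨c, by rw [mul_assoc, ← hc]⟩
    have h2 : Disjoint (fin a).toFinset (((fin b).toFinset.erase 1).image (fun y => a * y)) := by
      rw [Finset.disjoint_left]
      intro z hz hz'
      obtain ⟨y, hy, rfl⟩ := Finset.mem_image.1 hz'
      obtain ⟨c, hc⟩ := (mem a _).1 hz
      have h3 : y * c = 1 := by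
        apply lc a
        rw [← mul_assoc, ← hc, mul_one]
      exact (Finset.ne_of_mem_erase hy) (un y c h3)
    have h3 := Finset.card_le_card h1
    rw [Finset.card_union_of_disjoint h2, Finset.card_image_of_injective _ (fun x y h => lc a x y h),
      Finset.card_erase_of_mem (one_mem b)] at h3
    rw [hlen, hlen, hlen]
    have := card_pos a
    have := card_pos b
    omega
  have len_zero : ∀ a : M, len a = 0 → a = 1 := by
    intro a ha
    rw [hlen] at ha
    have h1 : (fin a).toFinset.card ≤ 1 := by omega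
    exact Finset.card_le_one.1 h1 a ((mem a a).2 ⟨1, (mul_one a).symm⟩) 1 (one_mem a)
  have gcd : ∀ a b : M, ∃ g : M, (∃ c, a = g * c) ∧ (∃ c, b = g * c) ∧
          ∀ x : M, (∃ c, a = x * c) → (∃ c, b = x * c) → ∃ c, g = x * c := by
    intro a b
    obtain ⟨g, ⟨hg1, hg2⟩, hmax⟩ := Set.exists_max_image
      ({y : M | ∃ c, a = y * c} ∩ {y : M | ∃ c, b = y * c}) len
      ((fin a).subset Set.inter_subset_left) ⟨1, ⟨a, (one_mul a).symm⟩, ⟨b, (one_mul b).symm⟩⟩
    refine ⟨g, hg1, hg2, ?_⟩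
    intro x hx1 hx2
    obtain ⟨m, ⟨c, hc⟩, ⟨e, he⟩, hm⟩ := lcm g x
    have h1 := hmax m ⟨hm a hg1 hx1, hm b hg2 hx2⟩
    rw [hc] at h1
    have h2 := len_add g c
    have h3 := len_zero c (by omega)
    rw [h3, mul_one] at hc
    exact ⟨e, by rw [← he, hc]⟩
  have gcd_mul : ∀ (j a b g : M), ((∃ c, a = g * c) ∧ (∃ c, b = g * c) ∧
      ∀ x : M, (∃ c, a = x * c) → (∃ c, b = x * c) → ∃ c, g = x * c) →
      ∀ x : M, (∃ c, j * a = x * c) → (∃ c, j * b = x * c) → ∃ c, j * g = x * c := by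
    intro j a b g hg x hx1 hx2
    obtain ⟨h, ⟨c1, hc1⟩, ⟨c2, hc2⟩, hh⟩ := gcd (j * a) (j * b)
    obtain ⟨y, hy⟩ := hh j ⟨a, rfl⟩ ⟨b, rfl⟩
    obtain ⟨e, he⟩ := hg.2.2 y ⟨c1, lc j _ _ (by rw [hc1, hy, mul_assoc])⟩
      ⟨c2, lc j _ _ (by rw [hc2, hy, mul_assoc])⟩
    obtain ⟨z, hz⟩ := hh x hx1 hx2
    exact ⟨z * e, by rw [he, ← mul_assoc, ← hy, hz, mul_assoc]⟩
  refine ⟨lc, rc, ⟨len, len_add, len_zero⟩, lcm, gcd, ?_, ?_, ?_, fin d, gen⟩
  · -- right lcm
    intro a b
    obtain ⟨k1, hk1⟩ := dvN a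
    obtain ⟨k2, hk2⟩ := dvN b
    obtain ⟨k, hka, hkb⟩ : ∃ k, k1 ≤ k ∧ k2 ≤ k := ⟨max k1 k2, le_max_left _ _, le_max_right _ _⟩
    obtain ⟨a', ha⟩ := hk1 k hka
    obtain ⟨b', hb⟩ := hk2 k hkb
    have ha' := comm _ _ _ ha
    have hb' := comm _ _ _ hb
    obtain ⟨g, hg⟩ := gcd a' b'
    obtain ⟨⟨p, hp⟩, ⟨q, hq⟩, _⟩ := id hg
    have hpq : p * a = q * b := by
      apply lc g
      rw [← mul_assoc, ← mul_assoc, ← hp, ← hq, ha', hb']
    have hgm : g * (p * a) = d ^ k := by rw [← mul_assoc, ← hp, ha']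
    refine ⟨p * a, ⟨p, rfl⟩, ⟨q, hpq⟩, ?_⟩
    rintro x ⟨c, hc⟩ ⟨e, he⟩
    obtain ⟨k3, hk3⟩ := dvN x
    obtain ⟨x', hx⟩ := hk3 (k + k3) (Nat.le_add_left _ _)
    have hx' := comm _ _ _ hx
    have h1 : d ^ k3 * a' = x' * c := by
      apply rc a
      rw [mul_assoc, ha', mul_assoc, ← hc, hx', ← pow_add, Nat.add_comm]
    have h2 : d ^ k3 * b' = x' * e := by
      apply rc b
      rw [mul_assoc, hb', mul_assoc, ← he, hx', ← pow_add, Nat.add_comm]
    obtain ⟨y, hy⟩ := gcd_mul (d ^ k3) a' b' g hg x' ⟨c, h1⟩ ⟨e, h2⟩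
    refine ⟨y, ?_⟩
    apply lc x'
    rw [hx', ← mul_assoc, ← hy, mul_assoc, hgm, ← pow_add, Nat.add_comm]
  · -- right gcd
    intro a b
    obtain ⟨k1, hk1⟩ := dvN a
    obtain ⟨k2, hk2⟩ := dvN b
    obtain ⟨k, hka, hkb⟩ : ∃ k, k1 ≤ k ∧ k2 ≤ k := ⟨max k1 k2, le_max_left _ _, le_max_right _ _⟩
    obtain ⟨a', ha⟩ := hk1 k hka
    obtain ⟨b', hb⟩ := hk2 k hkb
    have ha' := comm _ _ _ ha
    have hb' := comm _ _ _ hb
    obtain ⟨L, ⟨p, hp⟩, ⟨q, hq⟩, hL⟩ := lcm a' b'
    obtain ⟨g, hg⟩ := hL (d ^ k) ⟨a, ha'.symm⟩ ⟨b, hb'.symm⟩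
    refine ⟨g, ⟨p, ?_⟩, ⟨q, ?_⟩, ?_⟩
    · apply lc a'
      rw [ha', ← mul_assoc, ← hp, hg]
    · apply lc b'
      rw [hb', ← mul_assoc, ← hq, hg]
    · rintro x ⟨c, hc⟩ ⟨e, he⟩
      have h1 : a' * c = b' * e := by
        apply rc x
        rw [mul_assoc, mul_assoc, ← hc, ← he, ha', hb']
      obtain ⟨y, hy⟩ := hL (a' * c) ⟨c, rfl⟩ ⟨e, h1⟩
      refine ⟨y, ?_⟩
      apply lc L
      rw [← hg, ← mul_assoc, ← hy, mul_assoc, ← hc, ha']
  · -- balanced
    intro x
    constructor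
    · rintro ⟨c, hc⟩
      exact ⟨c, by rw [comm x c 1 (by rw [pow_one, ← hc]), pow_one]⟩
    · rintro ⟨c, hc⟩
      exact ⟨c, by rw [comm c x 1 (by rw [pow_one, ← hc]), pow_one]⟩

end Abstract

namespace LSys

variable {S : Type} (A : LSys S)

/-- letter over word -/
def lw : S → List S → List S
  | _, [] => []
  | a, b :: v => A.res a b :: lw (A.res b a) v

/-- word over letter -/
def rl : List S → S → S
  | [], a => a
  | b :: v, a => rl v (A.res b a)

/-- word over word -/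
def rs : List S → List S → List S
  | [], v => v
  | a :: u, v => rs u (A.lw a v)

theorem rs_nil (u : List S) : A.rs u [] = [] := by
  induction u with
  | nil => rfl
  | cons a u ih => exact ih

theorem lw_append (a : S) (v w : List S) :
    A.lw a (v ++ w) = A.lw a v ++ A.lw (A.rl v a) w := by
  induction v generalizing a with
  | nil => rfl
  | cons b v ih =>
    show A.res a b :: A.lw (A.res b a) (v ++ w) = _
    rw [ih]; rfl

theorem rs_append_left (u v w : List S) : A.rs (u ++ v) w = A.rs v (A.rs u w) := by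
  induction u generalizing w with
  | nil => rfl
  | cons a u ih => exact ih _

theorem rs_cons_right (v : List S) (a : S) (u : List S) :
    A.rs v (a :: u) = A.rl v a :: A.rs (A.lw a v) u := by
  induction v generalizing a u with
  | nil => rfl
  | cons b v ih =>
    show A.rs v (A.res b a :: A.lw (A.res a b) u) = _
    rw [ih]; rfl

theorem rs_append_right (u v w : List S) :
    A.rs u (v ++ w) = A.rs u v ++ A.rs (A.rs v u) w := by
  induction u generalizing v w with
  | nil => rw [rs_nil]; rfl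
  | cons a u ih =>
    show A.rs u (A.lw a (v ++ w)) = _
    rw [lw_append, ih, rs_cons_right]
    rfl

theorem cube1 (a b : S) (w : List S) :
    A.lw (A.res a b) (A.lw a w) = A.lw (A.res b a) (A.lw b w) := by
  induction w generalizing a b with
  | nil => rfl
  | cons c w ih =>
    show A.res (A.res a b) (A.res a c) :: A.lw (A.res (A.res a c) (A.res a b))
        (A.lw (A.res c a) w) =
      A.res (A.res b a) (A.res b c) :: A.lw (A.res (A.res b c) (A.res b a)) (A.lw (A.res c b) w)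
    rw [A.cube a b c, A.cube a c b, A.cube b c a, ih]

theorem cube2 (a : S) (v w : List S) :
    A.rs (A.lw a v) (A.lw a w) = A.lw (A.rl v a) (A.rs v w) := by
  induction v generalizing a w with
  | nil => rfl
  | cons b v ih =>
    show A.rs (A.lw (A.res b a) v) (A.lw (A.res a b) (A.lw a w)) =
      A.lw (A.rl v (A.res b a)) (A.rs v (A.lw b w))
    rw [cube1, ih]

theorem cube3 (u v w : List S) :
    A.rs (A.rs u v) (A.rs u w) = A.rs (A.rs v u) (A.rs v w) := by
  induction u generalizing v w with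
  | nil => rw [rs_nil]; rfl
  | cons a u ih =>
    rw [rs_cons_right]
    show A.rs (A.rs u (A.lw a v)) (A.rs u (A.lw a w)) =
      A.rs (A.rs (A.lw a v) u) (A.lw (A.rl v a) (A.rs v w))
    rw [ih, cube2]

/-- all letters are trivial -/
def Tr (w : List S) : Prop := ∀ x ∈ w, x = A.one

theorem lw_one (w : List S) : A.lw A.one w = w := by
  induction w with
  | nil => rfl
  | cons b w ih =>
    show A.res A.one b :: A.lw (A.res b A.one) w = _
    rw [A.one_res, A.res_one, ih]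

theorem tr_nil : A.Tr [] := fun _ h => absurd h List.not_mem_nil

theorem tr_cons {a : S} {w : List S} : A.Tr (a :: w) ↔ a = A.one ∧ A.Tr w := by
  unfold Tr
  rw [List.forall_mem_cons]

theorem tr_append {v w : List S} : A.Tr (v ++ w) ↔ A.Tr v ∧ A.Tr w := by
  unfold Tr
  rw [List.forall_mem_append]

theorem tr_lw (a : S) {w : List S} (h : A.Tr w) : A.Tr (A.lw a w) := by
  induction w generalizing a with
  | nil => exact A.tr_nil
  | cons b w ih =>
    rw [tr_cons] at h
    show A.Tr (A.res a b :: A.lw (A.res b a) w)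
    rw [tr_cons, h.1, A.res_one, A.one_res]
    exact ⟨rfl, ih a h.2⟩

theorem tr_rs (u : List S) {w : List S} (h : A.Tr w) : A.Tr (A.rs u w) := by
  induction u generalizing w with
  | nil => exact h
  | cons a u ih => exact ih (A.tr_lw a h)

theorem rs_tr {u : List S} (h : A.Tr u) (w : List S) : A.rs u w = w := by
  induction u generalizing w with
  | nil => rfl
  | cons a u ih =>
    rw [tr_cons] at h
    show A.rs u (A.lw a w) = w
    rw [h.1, lw_one, ih h.2]

theorem tr_self (u : List S) : A.Tr (A.rs u u) := by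
  induction u with
  | nil => exact A.tr_nil
  | cons a u ih =>
    show A.Tr (A.rs u (A.res a a :: A.lw (A.res a a) u))
    rw [A.res_self, lw_one]
    have h : A.one :: u = [A.one] ++ u := rfl
    rw [h, rs_append_right, tr_append]
    have h1 : A.Tr [A.one] := A.tr_cons.2 ⟨rfl, A.tr_nil⟩
    refine ⟨A.tr_rs u h1, ?_⟩
    rw [A.rs_tr h1]
    exact ih

/-- order on words -/
def le (u v : List S) : Prop := A.Tr (A.rs v u)

theorem le_refl (u : List S) : A.le u u := A.tr_self u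

theorem le_trans {u v w : List S} (h1 : A.le u v) (h2 : A.le v w) : A.le u w := by
  have h := A.cube3 w v u
  unfold le at h1 h2 ⊢
  rw [A.rs_tr h2] at h
  rw [h]
  exact A.tr_rs _ h1

theorem rs_congr {u u' : List S} (h1 : A.le u u') (h2 : A.le u' u) (w : List S) :
    A.rs u w = A.rs u' w := by
  have h := A.cube3 u u' w
  unfold le at h1 h2
  rwa [A.rs_tr h1, A.rs_tr h2] at h

theorem rs_mono (u : List S) {w w' : List S} (h : A.le w w') : A.le (A.rs u w) (A.rs u w') := by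
  unfold le at h ⊢
  rw [A.cube3 u w' w]
  exact A.tr_rs _ h

theorem rs_cancel (u w w' : List S) :
    ∃ t, A.Tr t ∧ A.rs (u ++ w') (u ++ w) = t ++ A.rs w' w := by
  have ht : A.Tr (A.rs u u) := A.tr_self u
  refine ⟨A.rs w' (A.rs u u), A.tr_rs _ ht, ?_⟩
  rw [rs_append_left, rs_append_right, A.rs_tr ht w, rs_append_right, A.rs_tr ht w']

theorem append_le {u w w' : List S} : A.le (u ++ w) (u ++ w') ↔ A.le w w' := by
  obtain ⟨t, ht, h⟩ := A.rs_cancel u w w'
  unfold le
  rw [h, tr_append]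
  exact ⟨fun h => h.2, fun h => ⟨ht, h⟩⟩

theorem le_append (u w : List S) : A.le u (u ++ w) := by
  unfold le
  rw [rs_append_left]
  exact A.tr_rs _ (A.tr_self u)

theorem join_le {u v z : List S} (h1 : A.le u z) (h2 : A.le v z) : A.le (u ++ A.rs u v) z := by
  unfold le at h1 h2 ⊢
  rw [rs_append_right, tr_append, A.cube3 u z v]
  exact ⟨h1, A.tr_rs _ h2⟩

theorem le_join (u v : List S) : A.le v (u ++ A.rs u v) := by
  unfold le
  rw [rs_append_left]
  exact A.tr_self _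

/-- equivalence of words -/
def setoid : Setoid (List S) where
  r u v := A.le u v ∧ A.le v u
  iseqv := ⟨fun u => ⟨A.le_refl u, A.le_refl u⟩, fun h => ⟨h.2, h.1⟩,
    fun h1 h2 => ⟨A.le_trans h1.1 h2.1, A.le_trans h2.2 h1.2⟩⟩

/-- the monoid -/
def Mon : Type := Quotient A.setoid

/-- class of a word -/
def cl (u : List S) : A.Mon := Quotient.mk A.setoid u

theorem cl_eq {u v : List S} : A.cl u = A.cl v ↔ A.le u v ∧ A.le v u :=
  ⟨fun h => Quotient.exact h, fun h => Quotient.sound (s := A.setoid) h⟩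

theorem congr_left {u u' : List S} (h : A.le u u') (h' : A.le u' u) (w : List S) :
    A.le (u ++ w) (u' ++ w) := by
  unfold le at h h' ⊢
  rw [rs_append_left, rs_append_right, A.rs_tr h' w, rs_append_right, tr_append]
  refine ⟨A.tr_rs _ h, ?_⟩
  rw [A.rs_tr h]
  exact A.tr_self w

theorem cl_surj (x : A.Mon) : ∃ u, A.cl u = x := Quotient.exists_rep x

instance monMul : Mul A.Mon := ⟨Quotient.map₂ (· ++ ·) (by
  intro u u' hu w w' hw
  refine ⟨A.le_trans (A.congr_left hu.1 hu.2 w) (A.append_le.2 hw.1),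
    A.le_trans (A.congr_left hu.2 hu.1 w') (A.append_le.2 hw.2)⟩)⟩

theorem cl_mul (u v : List S) : A.cl u * A.cl v = A.cl (u ++ v) := rfl

instance monMonoid : Monoid A.Mon where
  mul := (· * ·)
  one := A.cl []
  mul_assoc x y z := by
    obtain ⟨u, rfl⟩ := A.cl_surj x
    obtain ⟨v, rfl⟩ := A.cl_surj y
    obtain ⟨w, rfl⟩ := A.cl_surj z
    rw [cl_mul, cl_mul, cl_mul, cl_mul, List.append_assoc]
  one_mul x := by
    obtain ⟨u, rfl⟩ := A.cl_surj x
    show A.cl [] * A.cl u = _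
    rw [cl_mul]; rfl
  mul_one x := by
    obtain ⟨u, rfl⟩ := A.cl_surj x
    show A.cl u * A.cl [] = _
    rw [cl_mul, List.append_nil]

theorem one_def : (1 : A.Mon) = A.cl [] := rfl

theorem dvd_iff (u v : List S) : (∃ c, A.cl v = A.cl u * c) ↔ A.le u v := by
  constructor
  · rintro ⟨c, hc⟩
    obtain ⟨w, rfl⟩ := A.cl_surj c
    rw [cl_mul, cl_eq] at hc
    exact A.le_trans (A.le_append u w) hc.2
  · intro h
    refine ⟨A.cl (A.rs u v), ?_⟩
    rw [cl_mul, cl_eq]
    exact ⟨A.le_join u v, A.join_le h (A.le_refl v)⟩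

theorem mon_lc (a b c : A.Mon) (h : a * b = a * c) : b = c := by
  obtain ⟨u, rfl⟩ := A.cl_surj a
  obtain ⟨v, rfl⟩ := A.cl_surj b
  obtain ⟨w, rfl⟩ := A.cl_surj c
  rw [cl_mul, cl_mul, cl_eq] at h
  rw [cl_eq]
  exact ⟨A.append_le.1 h.1, A.append_le.1 h.2⟩

theorem mon_un (a b : A.Mon) (h : a * b = 1) : a = 1 := by
  obtain ⟨u, rfl⟩ := A.cl_surj a
  have h1 : A.le u [] := (A.dvd_iff u []).1 ⟨b, h.symm⟩
  rw [one_def, cl_eq]
  refine ⟨h1, ?_⟩
  unfold le
  rw [rs_nil]
  exact A.tr_nil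

theorem mon_lcm (a b : A.Mon) : ∃ m : A.Mon, (∃ c, m = a * c) ∧ (∃ c, m = b * c) ∧
    ∀ x : A.Mon, (∃ c, x = a * c) → (∃ c, x = b * c) → ∃ c, x = m * c := by
  obtain ⟨u, rfl⟩ := A.cl_surj a
  obtain ⟨v, rfl⟩ := A.cl_surj b
  refine ⟨A.cl (u ++ A.rs u v), (A.dvd_iff _ _).2 (A.le_append _ _),
    (A.dvd_iff _ _).2 (A.le_join _ _), ?_⟩
  intro x h1 h2
  obtain ⟨w, rfl⟩ := A.cl_surj x
  rw [dvd_iff] at h1 h2 ⊢
  exact A.join_le h1 h2

/-- letters -/
def iota (s : S) : A.Mon := A.cl [s]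

theorem rs_letters (s t : S) : A.rs [s] [t] = [A.res s t] := rfl

theorem le_letters (s t : S) : A.le [s] [t] ↔ A.res t s = A.one := by
  unfold le
  rw [rs_letters, tr_cons]
  exact ⟨fun h => h.1, fun h => ⟨h, A.tr_nil⟩⟩

theorem iota_inj : Function.Injective A.iota := by
  intro s t h
  unfold iota at h
  rw [cl_eq, le_letters, le_letters] at h
  exact A.anti s t h.2 h.1

theorem iota_one : A.iota A.one = 1 := by
  unfold iota
  rw [one_def, cl_eq]
  unfold le
  refine ⟨A.tr_cons.2 ⟨rfl, A.tr_nil⟩, ?_⟩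
  rw [rs_nil]
  exact A.tr_nil

theorem iota_mul {s t r : S} (h1 : A.res r s = A.one) (h2 : A.res s r = t) :
    A.iota s * A.iota t = A.iota r := by
  unfold iota
  rw [cl_mul, cl_eq, ← h2]
  exact ⟨A.join_le ((A.le_letters s r).2 h1) (A.le_refl _), A.le_join [s] [r]⟩

/-- the Garside element -/
def dlt : A.Mon := A.iota A.top

theorem iota_compl (s : S) : A.iota s * A.iota (A.res s A.top) = A.dlt :=
  A.iota_mul (A.top_res s) rfl

theorem iota_compl' (s : S) : A.iota (A.res s A.top) * A.iota s = A.dlt :=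
  A.iota_mul (A.top_res _) (A.compl_compl s)

theorem iota_cen (s : S) : A.dlt * A.iota s = A.iota s * A.dlt := by
  rw [← A.iota_compl s, mul_assoc, A.iota_compl' s, A.iota_compl s]

theorem cl_cons (s : S) (u : List S) : A.cl (s :: u) = A.iota s * A.cl u := rfl

theorem mon_cen (x : A.Mon) : A.dlt * x = x * A.dlt := by
  obtain ⟨u, rfl⟩ := A.cl_surj x
  induction u with
  | nil => rw [← one_def, mul_one, one_mul]
  | cons s u ih => rw [cl_cons, ← mul_assoc, iota_cen, mul_assoc, ih, mul_assoc]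

theorem mon_cenk (k : ℕ) (x : A.Mon) : A.dlt ^ k * x = x * A.dlt ^ k :=
  ((show Commute A.dlt x from A.mon_cen x).pow_left k).eq

theorem mon_dv (x : A.Mon) : ∃ (k : ℕ) (y : A.Mon), x * y = A.dlt ^ k := by
  obtain ⟨u, rfl⟩ := A.cl_surj x
  induction u with
  | nil => exact ⟨0, 1, by rw [← one_def, mul_one, pow_zero]⟩
  | cons s u ih =>
    obtain ⟨k, y, h⟩ := ih
    refine ⟨k + 1, y * A.iota (A.res s A.top), ?_⟩
    rw [cl_cons, mul_assoc, ← mul_assoc (A.cl u), h, mon_cenk, ← mul_assoc, iota_compl,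
      pow_succ']

theorem mon_rc (a b c : A.Mon) (h : b * a = c * a) : b = c := by
  obtain ⟨k, y, hy⟩ := A.mon_dv a
  have h1 : b * A.dlt ^ k = c * A.dlt ^ k := by rw [← hy, ← mul_assoc, h, mul_assoc]
  rw [← mon_cenk, ← mon_cenk] at h1
  exact A.mon_lc _ _ _ h1

theorem mon_fin [Finite S] (x : A.Mon) : Set.Finite {y : A.Mon | ∃ c, x = y * c} := by
  obtain ⟨u, rfl⟩ := A.cl_surj x
  induction u with
  | nil =>
    refine (Set.finite_singleton (1 : A.Mon)).subset ?_
    rintro y ⟨c, hc⟩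
    exact A.mon_un y c hc.symm
  | cons s u ih =>
    have h1 : Set.Finite (⋃ z ∈ {y : A.Mon | ∃ c, A.cl u = y * c}, ⋃ t : S,
        {y : A.Mon | y * A.iota t = A.iota s * z}) := by
      refine ih.biUnion fun z _ => Set.finite_iUnion fun t => ?_
      refine Set.Subsingleton.finite ?_
      intro y hy y' hy'
      exact A.mon_rc (A.iota t) _ _ (Eq.trans hy (Eq.symm hy'))
    refine h1.subset ?_
    intro y hy
    obtain ⟨v, rfl⟩ := A.cl_surj y
    have hy' : A.le v (s :: u) := (A.dvd_iff _ _).1 hy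
    rw [Set.mem_iUnion₂]
    refine ⟨A.cl (A.lw s v), ?_, ?_⟩
    · show ∃ c, A.cl u = A.cl (A.lw s v) * c
      rw [dvd_iff]
      exact hy'
    · rw [Set.mem_iUnion]
      refine ⟨A.rl v s, ?_⟩
      show A.cl v * A.iota (A.rl v s) = A.iota s * A.cl (A.lw s v)
      have h2 : A.rs v [s] = [A.rl v s] := by rw [rs_cons_right, rs_nil]
      unfold iota
      rw [cl_mul, cl_mul, cl_eq, ← h2]
      exact ⟨A.join_le (A.le_join [s] v) (A.le_append [s] _),
        A.join_le (u := [s]) (v := v) (A.le_join v [s]) (A.le_append v _)⟩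

theorem mon_gen : Submonoid.closure {x : A.Mon | ∃ c, A.dlt = x * c} = ⊤ := by
  rw [eq_top_iff]
  intro x _
  obtain ⟨u, rfl⟩ := A.cl_surj x
  induction u with
  | nil => exact Submonoid.one_mem _
  | cons s u ih =>
    rw [cl_cons]
    exact Submonoid.mul_mem _ (Submonoid.subset_closure ⟨_, (A.iota_compl s).symm⟩)
      (ih (Submonoid.mem_top _))

end LSys

/-- BLOCK LALG. -/
theorem LSys.exists_garside_proof {S : Type} [Finite S] (A : LSys S) :
    ∃ (M : Type) (_ : Monoid M) (ι : S → M), IsGarside M (ι A.top) ∧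
      Function.Injective ι ∧ ι A.one = 1 ∧
      (∀ s t r, A.res r s = A.one → A.res s r = t → ι s * ι t = ι r) ∧
      (∀ x, ι A.top * x = x * ι A.top) :=
  ⟨A.Mon, A.monMonoid, A.iota, garside_of A.mon_lc A.mon_un A.mon_lcm A.mon_cen A.mon_dv A.mon_rc
    A.mon_fin A.mon_gen, A.iota_inj, A.iota_one, fun _ _ _ h1 h2 => A.iota_mul h1 h2, A.mon_cen⟩

end Pool.Agent.FT

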